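import Pool.Agent.Helper84.SN.KillStep

set_option autoImplicit false

/-!
# Project SN: punctured steps with special chains (team note 2271, (1), (3), (5), (6))

`ι` labels the special chains, `x i` is the bottom and `x' i` the (complement of the) top of the
special chain `i`. `Cov P E x x' B`: every linking `π` with `π (x i) = x' i` becomes a linking in `E`
if the special links are permuted by some `b ∈ B` (`x i` is linked with `x' (b i)`).
-/

namespace Pool.Agent.Helper84.SN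

open Finset

section

variable {α β ι : Type*} [DecidableEq α] [DecidableEq β] [DecidableEq ι] [Fintype ι]

/-- see the file header -/
def Cov (P : Finset α) (E : Equiv.Perm {x // x ∈ P} → Prop) (x x' : ι → {x // x ∈ P})
    (B : Set (Equiv.Perm ι)) : Prop :=
  ∀ π : Equiv.Perm {x // x ∈ P}, (∀ i, π (x i) = x' i) →
    ∃ b ∈ B, ∃ π' : Equiv.Perm {x // x ∈ P}, (∀ z, (∀ i, x i ≠ z) → π' z = π z) ∧
      (∀ i, π' (x i) = x' (b i)) ∧ E π'

theorem Cov.mono {P : Finset α} {E E' : Equiv.Perm {x // x ∈ P} → Prop}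
    {x x' : ι → {x // x ∈ P}} {B B' : Set (Equiv.Perm ι)} (h : Cov P E x x' B)
    (hE : ∀ π, E π → E' π) (hB : B ⊆ B') : Cov P E' x x' B' := by
  intro π hπ
  obtain ⟨b, hb, π', h1, h2, h3⟩ := h π hπ
  exact ⟨b, hB hb, π', h1, h2, hE _ h3⟩

omit [DecidableEq α] [DecidableEq ι] [Fintype ι] in
/-- the special links of a permutation can be permuted -/
theorem exists_perm_special {γ : Type*} [Fintype γ] [DecidableEq γ] {x x' : ι → γ}
    (hx' : Function.Injective x') (π : Equiv.Perm γ)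
    (hπ : ∀ i, π (x i) = x' i) (b : Equiv.Perm ι) :
    ∃ π' : Equiv.Perm γ, (∀ z, (∀ i, x i ≠ z) → π' z = π z) ∧ ∀ i, π' (x i) = x' (b i) := by
  classical
  have hx : Function.Injective x := by
    intro i j h
    apply hx'
    rw [← hπ, ← hπ, h]
  have hex : ∀ z : γ, ∃ w : γ, (∀ i, x i = z → w = x' (b i)) ∧ ((∀ i, x i ≠ z) → w = π z) := by
    intro z
    by_cases hz : ∃ i, x i = z
    · obtain ⟨i, rfl⟩ := hz
      exact ⟨x' (b i), fun j hj => by rw [hx hj], fun h => absurd rfl (h i)⟩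
    · exact ⟨π z, fun i hi => absurd ⟨i, hi⟩ hz, fun _ => rfl⟩
  choose f hf1 hf2 using hex
  obtain ⟨π', hπ'⟩ := exists_perm f univ (by
    intro z _ z' _ h
    by_cases hz : ∃ i, x i = z
    · obtain ⟨i, hi⟩ := hz
      by_cases hz' : ∃ i, x i = z'
      · obtain ⟨j, hj⟩ := hz'
        rw [hf1 z i hi, hf1 z' j hj] at h
        rw [← hi, ← hj, b.injective (hx' h)]
      · push Not at hz'
        rw [hf1 z i hi, hf2 z' hz', ← hπ] at h
        exact absurd (π.injective h) (hz' _)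
    · push Not at hz
      by_cases hz' : ∃ i, x i = z'
      · obtain ⟨j, hj⟩ := hz'
        rw [hf1 z' j hj, hf2 z hz, ← hπ] at h
        exact absurd (π.injective h).symm (hz _)
      · push Not at hz'
        rw [hf2 z hz, hf2 z' hz'] at h
        exact π.injective h)
  exact ⟨π', fun z hz => by rw [hπ' z (mem_univ _), hf2 z hz],
    fun i => by rw [hπ' _ (mem_univ _), hf1 _ i rfl]⟩

variable {R : α → β → Prop} {P : Finset α} {Q : Finset β}

/-- the condition KP for the special sets `X, X' ⊆ P`, `X1, X1' ⊆ Q` -/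
def KP (R : α → β → Prop) (P : Finset α) (Q : Finset β) (X : Finset α) (X1 : Finset β)
    (X' : Finset α) (X1' : Finset β) : Prop :=
  ∀ A ⊆ P \ X, ∀ D ⊆ Q \ X1', A.card ≤ (loS R (P \ X') D).card ∨
    A.card + D.card ≤ (upS R (Q \ X1) A).card + (loS R (P \ X') D).card

/-- Duality of KP. -/
theorem KP.dual {X X' : Finset α} {X1 X1' : Finset β} (hX : X ⊆ P) (hX' : X' ⊆ P) (hX1 : X1 ⊆ Q)
    (hX1' : X1' ⊆ Q) (hc : X.card = X'.card) (hc1 : X1.card = X1'.card)
    (A : Finset α) (hA : A ⊆ P \ X) (D : Finset β) (hD : D ⊆ Q \ X1')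
    (hv1 : (loS R (P \ X') D).card < A.card)
    (hv2 : (upS R (Q \ X1) A).card + (loS R (P \ X') D).card < A.card + D.card) :
    (loS R (P \ X) ((Q \ X1) \ upS R (Q \ X1) A)).card <
        ((P \ X') \ loS R (P \ X') D).card ∧
      (upS R (Q \ X1') ((P \ X') \ loS R (P \ X') D)).card +
        (loS R (P \ X) ((Q \ X1) \ upS R (Q \ X1) A)).card <
        ((P \ X') \ loS R (P \ X') D).card + ((Q \ X1) \ upS R (Q \ X1) A).card := by
  classical
  have h1 : (P \ X).card + X.card = P.card := card_sdiff_add_card_eq_card hX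
  have h2 : (P \ X').card + X'.card = P.card := card_sdiff_add_card_eq_card hX'
  have h3 : (Q \ X1).card + X1.card = Q.card := card_sdiff_add_card_eq_card hX1
  have h4 : (Q \ X1').card + X1'.card = Q.card := card_sdiff_add_card_eq_card hX1'
  have h5 : ((P \ X') \ loS R (P \ X') D).card + (loS R (P \ X') D).card = (P \ X').card :=
    card_sdiff_add_card_eq_card fun x hx => (mem_loS.1 hx).1
  have h6 : ((Q \ X1) \ upS R (Q \ X1) A).card + (upS R (Q \ X1) A).card = (Q \ X1).card :=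
    card_sdiff_add_card_eq_card fun x hx => (mem_upS.1 hx).1
  have h7 : (loS R (P \ X) ((Q \ X1) \ upS R (Q \ X1) A)).card + A.card ≤ (P \ X).card := by
    rw [← card_union_of_disjoint]
    · exact card_le_card (union_subset (fun x hx => (mem_loS.1 hx).1) hA)
    · rw [disjoint_left]
      intro x hx hxA
      obtain ⟨_, z, hz, hxz⟩ := mem_loS.1 hx
      rw [mem_sdiff] at hz
      exact hz.2 (mem_upS.2 ⟨hz.1, x, hxA, hxz⟩)
  have h8 : (upS R (Q \ X1') ((P \ X') \ loS R (P \ X') D)).card + D.card ≤ (Q \ X1').card := by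
    rw [← card_union_of_disjoint]
    · exact card_le_card (union_subset (fun x hx => (mem_upS.1 hx).1) hD)
    · rw [disjoint_left]
      intro z hz hzD
      obtain ⟨_, x, hx, hxz⟩ := mem_upS.1 hz
      rw [mem_sdiff] at hx
      exact hx.2 (mem_loS.2 ⟨hx.1, z, hzD, hxz⟩)
  constructor <;> omega

/-- The punctured step with special chains. `C` is a set of permutations `c` such that `x i` may be
prolonged from `y (c i)`. -/
theorem cov_step {x x' : ι → {a // a ∈ P}} {y y' : ι → {z // z ∈ Q}}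
    (hx : Function.Injective x) (hx' : Function.Injective x')
    (hy : Function.Injective y) (hy' : Function.Injective y') (hPQ : P.card ≤ Q.card)
    (hR' : ∀ i, R (x' i).1 (y' i).1)
    {C : Set (Equiv.Perm ι)} (hC : ∀ c ∈ C, ∀ i, R (x i).1 (y (c i)).1)
    (hKP : KP R P Q (univ.image fun i => (x i).1) (univ.image fun i => (y i).1)
      (univ.image fun i => (x' i).1) (univ.image fun i => (y' i).1))
    {B B' : Set (Equiv.Perm ι)} (hB : ∀ b ∈ B, ∃ c ∈ C, b * c⁻¹ ∈ B')
    {E : Equiv.Perm {x // x ∈ P} → Prop} (hcov : Cov P E x x' B) :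
    Cov Q (fun π => ∃ π', LStep R P Q π π' ∧ E π') y y' B' := by
  classical
  intro π hπ
  set X : Finset α := univ.image fun i => (x i).1 with hXdef
  set X' : Finset α := univ.image fun i => (x' i).1 with hX'def
  set X1 : Finset β := univ.image fun i => (y i).1 with hX1def
  set X1' : Finset β := univ.image fun i => (y' i).1 with hX1'def
  have inj1 : ∀ {γ : Type _} {S : Finset γ} {f : ι → {z // z ∈ S}}, Function.Injective f →
      Function.Injective fun i => (f i).1 := by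
    intro γ S f hf i j h
    exact hf (Subtype.ext h)
  have inj2 : ∀ {γ : Type _} {S : Finset γ} {f : ι → {z // z ∈ S}}, Function.Injective f →
      Function.Injective fun i => (f i).1 := by
    intro γ S f hf i j h
    exact hf (Subtype.ext h)
  have hXP : X ⊆ P := by
    intro z hz
    obtain ⟨i, _, rfl⟩ := mem_image.1 hz
    exact (x i).2
  have hX'P : X' ⊆ P := by
    intro z hz
    obtain ⟨i, _, rfl⟩ := mem_image.1 hz
    exact (x' i).2
  have hX1Q : X1 ⊆ Q := by
    intro z hz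
    obtain ⟨i, _, rfl⟩ := mem_image.1 hz
    exact (y i).2
  have hX1'Q : X1' ⊆ Q := by
    intro z hz
    obtain ⟨i, _, rfl⟩ := mem_image.1 hz
    exact (y' i).2
  have c1 : X.card = Fintype.card ι := card_image_of_injective _ (inj1 hx)
  have c2 : X'.card = Fintype.card ι := card_image_of_injective _ (inj1 hx')
  have c3 : X1.card = Fintype.card ι := card_image_of_injective _ (inj2 hy)
  have c4 : X1'.card = Fintype.card ι := card_image_of_injective _ (inj2 hy')
  have d1 : (P \ X).card + X.card = P.card := card_sdiff_add_card_eq_card hXP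
  have d2 : (P \ X').card + X'.card = P.card := card_sdiff_add_card_eq_card hX'P
  have d3 : (Q \ X1).card + X1.card = Q.card := card_sdiff_add_card_eq_card hX1Q
  have d4 : (Q \ X1').card + X1'.card = Q.card := card_sdiff_add_card_eq_card hX1'Q
  have hmX : ∀ z : {a // a ∈ P}, z.1 ∈ X ↔ ∃ i, x i = z := by
    intro z
    rw [hXdef, mem_image]
    constructor
    · rintro ⟨i, _, h⟩
      exact ⟨i, Subtype.ext h⟩
    · rintro ⟨i, h⟩
      exact ⟨i, mem_univ _, congrArg Subtype.val h⟩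
  have hmX' : ∀ z : {a // a ∈ P}, z.1 ∈ X' ↔ ∃ i, x' i = z := by
    intro z
    rw [hX'def, mem_image]
    constructor
    · rintro ⟨i, _, h⟩
      exact ⟨i, Subtype.ext h⟩
    · rintro ⟨i, h⟩
      exact ⟨i, mem_univ _, congrArg Subtype.val h⟩
  have hmX1 : ∀ z : {a // a ∈ Q}, z.1 ∈ X1 ↔ ∃ i, y i = z := by
    intro z
    rw [hX1def, mem_image]
    constructor
    · rintro ⟨i, _, h⟩
      exact ⟨i, Subtype.ext h⟩
    · rintro ⟨i, h⟩
      exact ⟨i, mem_univ _, congrArg Subtype.val h⟩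
  have hmX1' : ∀ z : {a // a ∈ Q}, z.1 ∈ X1' ↔ ∃ i, y' i = z := by
    intro z
    rw [hX1'def, mem_image]
    constructor
    · rintro ⟨i, _, h⟩
      exact ⟨i, Subtype.ext h⟩
    · rintro ⟨i, h⟩
      exact ⟨i, mem_univ _, congrArg Subtype.val h⟩
  by_cases hQ0 : Q.card = 0
  · -- everything is empty
    have hempty : IsEmpty {z // z ∈ Q} := by
      rw [card_eq_zero] at hQ0
      subst hQ0
      exact ⟨fun z => absurd z.2 (notMem_empty _)⟩
    have hP0 : P.card = 0 := by omega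
    have hemptyP : IsEmpty {z // z ∈ P} := by
      rw [card_eq_zero] at hP0
      subst hP0
      exact ⟨fun z => absurd z.2 (notMem_empty _)⟩
    have hι : IsEmpty ι := ⟨fun i => hempty.false (y i)⟩
    obtain ⟨b, hb, π', -, -, hE⟩ := hcov 1 (fun i => (hι.false i).elim)
    obtain ⟨c, hc, hbc⟩ := hB b hb
    exact ⟨b * c⁻¹, hbc, 1, fun z => (hempty.false z).elim, fun i => (hι.false i).elim, π',
      ⟨fun x => (hemptyP.false x).elim, fun x => (hemptyP.false x).elim,
        fun x => (hemptyP.false x).elim, fun x => (hemptyP.false x).elim,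
        fun x => (hemptyP.false x).elim, fun x => (hemptyP.false x).elim,
        fun x => (hemptyP.false x).elim⟩, hE⟩
  have hne : Nonempty β := by
    obtain ⟨z, _⟩ := card_pos.1 (Nat.pos_of_ne_zero hQ0)
    exact ⟨z⟩
  set e : β → β := fun z => if h : z ∈ Q then (π ⟨z, h⟩).1 else z with he
  have heQ : ∀ z : {z // z ∈ Q}, e z.1 = (π z).1 := by
    intro z
    rw [he]
    simp only [z.2, dif_pos]
  have hπX : ∀ z : {z // z ∈ Q}, (π z).1 ∈ X1' ↔ z.1 ∈ X1 := by
    intro z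
    rw [hmX1', hmX1]
    constructor
    · rintro ⟨i, hi⟩
      rw [← hπ] at hi
      exact ⟨i, π.injective hi⟩
    · rintro ⟨i, hi⟩
      rw [← hi, hπ]
      exact ⟨i, rfl⟩
  have heB : Set.BijOn e ((Q \ X1 : Finset β) : Set β) ((Q \ X1' : Finset β) : Set β) := by
    refine ⟨?_, ?_, ?_⟩
    · intro z hz
      rw [mem_coe, mem_sdiff] at hz ⊢
      have h := heQ ⟨z, hz.1⟩
      rw [h]
      refine ⟨(π ⟨z, hz.1⟩).2, ?_⟩
      rw [hπX]
      exact hz.2
    · intro z hz z' hz' h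
      rw [mem_coe, mem_sdiff] at hz hz'
      have h1 := heQ ⟨z, hz.1⟩
      have h2 := heQ ⟨z', hz'.1⟩
      rw [h, h2] at h1
      have h3 := π.injective (Subtype.ext h1)
      exact (congrArg Subtype.val h3).symm
    · intro z hz
      rw [mem_coe, mem_sdiff] at hz
      have h1 : e (π.symm ⟨z, hz.1⟩).1 = z := by
        rw [heQ, Equiv.apply_symm_apply]
      refine ⟨(π.symm ⟨z, hz.1⟩).1, ?_, h1⟩
      rw [mem_coe, mem_sdiff]
      refine ⟨(π.symm ⟨z, hz.1⟩).2, ?_⟩
      rw [← hπX, Equiv.apply_symm_apply]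
      exact hz.2
  obtain ⟨F, G, hF, hG, hFi, hGi, hFG, -⟩ := hall_step (R := R) (P1 := P \ X) (P2 := P \ X')
    (Q1 := Q \ X1) (Q2 := Q \ X1') (Y := Q \ X1) (Y' := Q \ X1') (e := e) (r := 0)
    (by omega) (by omega) subset_rfl subset_rfl heB hKP (fun h => absurd rfl h) (by omega)
  have hFQ : ∀ z : {a // a ∈ P}, z.1 ∉ X → F z.1 ∈ Q \ X1 ∧ R z.1 (F z.1) := fun z hz =>
    hF z.1 (mem_sdiff.2 ⟨z.2, hz⟩)
  have hGQ : ∀ z : {a // a ∈ P}, z.1 ∉ X' → G z.1 ∈ Q \ X1' ∧ R z.1 (G z.1) := fun z hz =>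
    hG z.1 (mem_sdiff.2 ⟨z.2, hz⟩)
  -- the lower linking
  have hex : ∀ z : {a // a ∈ P}, ∃ w : {a // a ∈ P}, (∀ i, x i = z → w = x' i) ∧
      (z.1 ∉ X → w.1 ∉ X' ∧ G w.1 = e (F z.1)) := by
    intro z
    by_cases hz : z.1 ∈ X
    · obtain ⟨i, hi⟩ := (hmX z).1 hz
      exact ⟨x' i, fun j hj => by rw [hx (hj.trans hi.symm)], fun h => absurd hz h⟩
    · have h1 := hFQ z hz
      have h2 := (hFG (F z.1) h1.1).1 (mem_image.2 ⟨z.1, mem_sdiff.2 ⟨z.2, hz⟩, rfl⟩)
      obtain ⟨w, hw, hw2⟩ := mem_image.1 h2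
      rw [mem_sdiff] at hw
      exact ⟨⟨w, hw.1⟩, fun i hi => absurd ((hmX z).2 ⟨i, hi⟩) hz, fun _ => ⟨hw.2, hw2⟩⟩
  choose f hf1 hf2 using hex
  obtain ⟨π₀, hπ₀⟩ := exists_perm f univ (by
    intro z _ z' _ h
    by_cases hz : z.1 ∈ X
    · obtain ⟨i, hi⟩ := (hmX z).1 hz
      by_cases hz' : z'.1 ∈ X
      · obtain ⟨j, hj⟩ := (hmX z').1 hz'
        rw [hf1 z i hi, hf1 z' j hj] at h
        rw [← hi, ← hj, hx' h]
      · have h1 := (hf2 z' hz').1
        rw [← h, hf1 z i hi] at h1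
        exact absurd ((hmX' _).2 ⟨i, rfl⟩) h1
    · have h1 := hf2 z hz
      by_cases hz' : z'.1 ∈ X
      · obtain ⟨j, hj⟩ := (hmX z').1 hz'
        rw [h, hf1 z' j hj] at h1
        exact absurd ((hmX' _).2 ⟨j, rfl⟩) h1.1
      · have h2 := hf2 z' hz'
        rw [← h] at h2
        have h3 : e (F z.1) = e (F z'.1) := by rw [← h1.2, ← h2.2]
        have h4 := heB.injOn (mem_coe.2 (hFQ z hz).1) (mem_coe.2 (hFQ z' hz').1) h3
        exact Subtype.ext (hFi (mem_coe.2 (mem_sdiff.2 ⟨z.2, hz⟩))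
          (mem_coe.2 (mem_sdiff.2 ⟨z'.2, hz'⟩)) h4))
  obtain ⟨b, hb, π₁, h1, h2, hE⟩ := hcov π₀ (fun i => by
    rw [hπ₀ _ (mem_univ _), hf1 _ i rfl])
  obtain ⟨c, hc, hbc⟩ := hB b hb
  obtain ⟨ρ, hρ1, hρ2⟩ := exists_perm_special hy' π hπ (b * c⁻¹)
  refine ⟨b * c⁻¹, hbc, ρ, hρ1, hρ2, π₁, ?_, hE⟩
  -- the prolongations
  have hexF : ∀ z : {a // a ∈ P}, ∃ w : {a // a ∈ Q}, (∀ i, x i = z → w = y (c i)) ∧
      (z.1 ∉ X → w.1 = F z.1) := by
    intro z
    by_cases hz : z.1 ∈ X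
    · obtain ⟨i, hi⟩ := (hmX z).1 hz
      exact ⟨y (c i), fun j hj => by rw [hx (hj.trans hi.symm)], fun h => absurd hz h⟩
    · exact ⟨⟨F z.1, (mem_sdiff.1 (hFQ z hz).1).1⟩, fun i hi => absurd ((hmX z).2 ⟨i, hi⟩) hz,
        fun _ => rfl⟩
  have hexG : ∀ z : {a // a ∈ P}, ∃ w : {a // a ∈ Q}, (∀ i, x' i = z → w = y' i) ∧
      (z.1 ∉ X' → w.1 = G z.1) := by
    intro z
    by_cases hz : z.1 ∈ X'
    · obtain ⟨i, hi⟩ := (hmX' z).1 hz
      exact ⟨y' i, fun j hj => by rw [hx' (hj.trans hi.symm)], fun h => absurd hz h⟩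
    · exact ⟨⟨G z.1, (mem_sdiff.1 (hGQ z hz).1).1⟩, fun i hi => absurd ((hmX' z).2 ⟨i, hi⟩) hz,
        fun _ => rfl⟩
  choose F' hF'1 hF'2 using hexF
  choose G' hG'1 hG'2 using hexG
  refine ⟨F', G', ?_, ?_, ?_, ?_, ?_⟩
  · intro z z' h
    by_cases hz : z.1 ∈ X
    · obtain ⟨i, hi⟩ := (hmX z).1 hz
      by_cases hz' : z'.1 ∈ X
      · obtain ⟨j, hj⟩ := (hmX z').1 hz'
        rw [hF'1 z i hi, hF'1 z' j hj] at h
        rw [← hi, ← hj, c.injective (hy h)]
      · have h3 := hF'2 z' hz'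
        rw [← h, hF'1 z i hi] at h3
        have h4 := (mem_sdiff.1 (hFQ z' hz').1).2
        rw [← h3] at h4
        exact absurd ((hmX1 _).2 ⟨_, rfl⟩) h4
    · by_cases hz' : z'.1 ∈ X
      · obtain ⟨j, hj⟩ := (hmX z').1 hz'
        have h3 := hF'2 z hz
        rw [h, hF'1 z' j hj] at h3
        have h4 := (mem_sdiff.1 (hFQ z hz).1).2
        rw [← h3] at h4
        exact absurd ((hmX1 _).2 ⟨_, rfl⟩) h4
      · have h3 := hF'2 z hz
        rw [h, hF'2 z' hz'] at h3
        exact Subtype.ext (hFi (mem_coe.2 (mem_sdiff.2 ⟨z.2, hz⟩))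
          (mem_coe.2 (mem_sdiff.2 ⟨z'.2, hz'⟩)) h3.symm)
  · intro z z' h
    by_cases hz : z.1 ∈ X'
    · obtain ⟨i, hi⟩ := (hmX' z).1 hz
      by_cases hz' : z'.1 ∈ X'
      · obtain ⟨j, hj⟩ := (hmX' z').1 hz'
        rw [hG'1 z i hi, hG'1 z' j hj] at h
        rw [← hi, ← hj, hy' h]
      · have h3 := hG'2 z' hz'
        rw [← h, hG'1 z i hi] at h3
        have h4 := (mem_sdiff.1 (hGQ z' hz').1).2
        rw [← h3] at h4
        exact absurd ((hmX1' _).2 ⟨_, rfl⟩) h4
    · by_cases hz' : z'.1 ∈ X'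
      · obtain ⟨j, hj⟩ := (hmX' z').1 hz'
        have h3 := hG'2 z hz
        rw [h, hG'1 z' j hj] at h3
        have h4 := (mem_sdiff.1 (hGQ z hz).1).2
        rw [← h3] at h4
        exact absurd ((hmX1' _).2 ⟨_, rfl⟩) h4
      · have h3 := hG'2 z hz
        rw [h, hG'2 z' hz'] at h3
        exact Subtype.ext (hGi (mem_coe.2 (mem_sdiff.2 ⟨z.2, hz⟩))
          (mem_coe.2 (mem_sdiff.2 ⟨z'.2, hz'⟩)) h3.symm)
  · intro z
    by_cases hz : z.1 ∈ X
    · obtain ⟨i, hi⟩ := (hmX z).1 hz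
      rw [hF'1 z i hi, ← hi]
      exact hC c hc i
    · rw [hF'2 z hz]
      exact (hFQ z hz).2
  · intro z
    by_cases hz : z.1 ∈ X'
    · obtain ⟨i, hi⟩ := (hmX' z).1 hz
      rw [hG'1 z i hi, ← hi]
      exact hR' i
    · rw [hG'2 z hz]
      exact (hGQ z hz).2
  · intro z
    by_cases hz : z.1 ∈ X
    · obtain ⟨i, hi⟩ := (hmX z).1 hz
      rw [hF'1 z i hi, ← hi, hρ2, h2, hG'1 _ (b i) rfl]
      simp
    · have h3 : ∀ i, x i ≠ z := fun i hi => hz ((hmX z).2 ⟨i, hi⟩)
      have h4 := hF'2 z hz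
      have h5 := hFQ z hz
      have h6 : ∀ i, y i ≠ F' z := by
        intro i hi
        have h7 := (mem_sdiff.1 h5.1).2
        rw [← h4, ← hi] at h7
        exact h7 ((hmX1 _).2 ⟨i, rfl⟩)
      rw [hρ1 _ h6, h1 z h3, hπ₀ z (mem_univ _)]
      apply Subtype.ext
      have h8 := hf2 z hz
      rw [hG'2 _ h8.1, h8.2, ← h4, heQ]

/-- The start: prescribing all links but the special ones gives `Cov` for the even permutations. -/
theorem cov_of_kill {E : Equiv.Perm {x // x ∈ P} → Prop} {x x' : ι → {a // a ∈ P}}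
    (hx : Function.Injective x) (hx' : Function.Injective x')
    (hk : Kill P E (P.card - Fintype.card ι)) :
    Cov P E x x' {b | Equiv.Perm.sign b = 1} := by
  classical
  intro π hπ
  set Z : Finset {x // x ∈ P} := (univ.image x)ᶜ with hZ
  have hZc : Z.card ≤ P.card - Fintype.card ι := by
    rw [hZ, card_compl, Fintype.card_coe, card_image_of_injective _ hx, card_univ]
  obtain ⟨π', h1, h2, h3⟩ := hk Z hZc π (Equiv.Perm.sign π)
  have h4 : ∀ z, (∀ i, x i ≠ z) → π' z = π z := by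
    intro z hz
    apply h1
    rw [hZ, mem_compl, mem_image]
    rintro ⟨i, _, hi⟩
    exact hz i hi
  -- `π'` permutes the special tops
  have h5 : ∀ i, ∃ j, π' (x i) = x' j := by
    intro i
    by_contra hc
    push Not at hc
    have h6 : ∀ j, x j ≠ π.symm (π' (x i)) := by
      intro j hj
      apply hc j
      rw [← hπ, hj, Equiv.apply_symm_apply]
    have h7 := h4 _ h6
    rw [Equiv.apply_symm_apply] at h7
    exact h6 i (π'.injective h7).symm
  choose g hg using h5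
  have hgi : Function.Injective g := by
    intro i j h
    apply hx
    apply π'.injective
    rw [hg, hg, h]
  set b : Equiv.Perm ι := Equiv.ofBijective g (Finite.injective_iff_bijective.1 hgi) with hb
  refine ⟨b, ?_, π', h4, fun i => hg i, h3⟩
  -- the sign
  have h8 : π⁻¹ * π' = Equiv.Perm.viaFintypeEmbedding b ⟨x, hx⟩ := by
    ext z
    by_cases hz : ∃ i, x i = z
    · obtain ⟨i, rfl⟩ := hz
      have h9 := Equiv.Perm.viaFintypeEmbedding_apply_image b ⟨x, hx⟩ i
      rw [Function.Embedding.coeFn_mk] at h9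
      rw [h9, Equiv.Perm.mul_apply, hg, ← hπ]
      simp [hb]
    · have h9 := Equiv.Perm.viaFintypeEmbedding_apply_notMem_range b ⟨x, hx⟩ (b := z) (by
        rintro ⟨i, hi⟩
        exact hz ⟨i, hi⟩)
      push Not at hz
      rw [h9, Equiv.Perm.mul_apply, h4 z hz]
      simp
  have h9 : Equiv.Perm.sign (π⁻¹ * π') = 1 := by
    rw [Equiv.Perm.sign_mul, Equiv.Perm.sign_inv, h2]
    exact Int.units_mul_self _
  rw [h8, Equiv.Perm.viaFintypeEmbedding_sign] at h9
  exact h9

end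

end Pool.Agent.Helper84.SN
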