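import Mathlib

set_option autoImplicit false

/-!
# Project SN: the abstract Hall steps (1) and (2) of team note 2271

`R x z` means that `x` is below `z`. `P1`, `P2` are (parts of) the lower level on the bottom and on
the top side, `Q1`, `Q2` (parts of) the upper level. `e` is the prescribed linking `Y -> Y'` of
bottoms in `Y ⊆ Q1` and (complements of) tops in `Y' ⊆ Q2`. The conclusion: injections
`F : P1 -> Q1`, `G : P2 -> Q2` along `R`, such that a prescribed link is used at the bottom iff it is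
used at the top, and at least `r` prescribed links are not used.

Hall graph: left side `P1 ⊔ Q2 ⊔ Fin U`, right side `Q1 ⊔ P2 ⊔ Fin U`, `U = q - p - r`. The dummies
carry the free links which are not prolonged, there are at most `U` of them.
-/

namespace Pool.Agent.Helper84.SN

open Finset

section

variable {α β : Type*} [DecidableEq α] [DecidableEq β]

/-- the elements of `Q` above some element of `A` -/
noncomputable def upS (R : α → β → Prop) (Q : Finset β) (A : Finset α) : Finset β :=
  open Classical in Q.filter fun z => ∃ x ∈ A, R x z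

/-- the elements of `P` below some element of `D` -/
noncomputable def loS (R : α → β → Prop) (P : Finset α) (D : Finset β) : Finset α :=
  open Classical in P.filter fun x => ∃ z ∈ D, R x z

variable {R : α → β → Prop} {P1 P2 : Finset α} {Q1 Q2 Y Y' : Finset β} {e : β → β} {r U : ℕ}

theorem mem_upS {Q : Finset β} {A : Finset α} {z : β} :
    z ∈ upS R Q A ↔ z ∈ Q ∧ ∃ x ∈ A, R x z := by
  classical
  unfold upS
  rw [mem_filter]

theorem mem_loS {P : Finset α} {D : Finset β} {x : α} :
    x ∈ loS R P D ↔ x ∈ P ∧ ∃ z ∈ D, R x z := by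
  classical
  unfold loS
  rw [mem_filter]

/-- the prescribed links (bottoms) whose top is in `D` -/
def lk (Y : Finset β) (e : β → β) (D : Finset β) : Finset β := Y.filter fun z => e z ∈ D

omit [DecidableEq α] in
theorem card_lk (he : Set.BijOn e (Y : Set β) (Y' : Set β)) {D : Finset β} :
    (lk Y e D).card = (D ∩ Y').card := by
  have h1 : (lk Y e D).image e = D ∩ Y' := by
    ext c
    simp only [lk, mem_image, mem_filter, mem_inter]
    constructor
    · rintro ⟨z, ⟨hz, hzD⟩, rfl⟩
      exact ⟨hzD, he.mapsTo hz⟩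
    · rintro ⟨hc, hc'⟩
      obtain ⟨z, hz, rfl⟩ := he.surjOn hc'
      exact ⟨z, ⟨hz, hc⟩, rfl⟩
  rw [← h1, card_image_of_injOn]
  exact he.injOn.mono (by
    intro z hz
    simp only [lk, coe_filter, Set.mem_setOf_eq] at hz
    exact hz.1)

/-- the counting behind Hall's condition -/
theorem count (hP : P1.card = P2.card) (hQ : Q1.card = Q2.card)
    (hY : Y ⊆ Q1) (hY' : Y' ⊆ Q2) (he : Set.BijOn e (Y : Set β) (Y' : Set β))
    (hK : ∀ A ⊆ P1, ∀ D ⊆ Q2, A.card ≤ (loS R P2 D).card ∨
      A.card + D.card ≤ (upS R Q1 A).card + (loS R P2 D).card)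
    (hr : Y ≠ Q1 → ∀ A ⊆ P1, ∀ A' ⊆ P2,
      r + A.card + A'.card ≤ max Y.card ((upS R Q1 A).card + (upS R Q2 A').card))
    (hU : P1.card + r + U = Q1.card)
    {A : Finset α} {D : Finset β} (hA : A ⊆ P1) (hD : D ⊆ Q2) (S : Finset (Fin U)) :
    A.card + D.card + S.card ≤
      (upS R Q1 A ∪ lk Y e D ∪ (if S = ∅ then ∅ else Q1 \ Y)).card + (loS R P2 D).card +
        (if D ⊆ Y' then S else univ).card := by
  have hlk : (lk Y e D).card = (D ∩ Y').card := card_lk he
  have hlkY : lk Y e D ⊆ Y := filter_subset _ _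
  have hYY : Y.card = Y'.card := by
    have h := card_lk (D := Y') he
    have h2 : lk Y e Y' = Y := filter_true_of_mem fun z hz => he.mapsTo hz
    rw [h2, inter_self] at h
    exact h
  have hsplit : D.card = (D ∩ Y').card + (D \ Y').card := (card_inter_add_card_sdiff D Y').symm
  have hk := hK A hA D hD
  have hS : S.card ≤ U := by
    simpa using card_le_univ S
  by_cases hDY : D ⊆ Y'
  · rw [if_pos hDY]
    have h0 : D ∩ Y' = D := inter_eq_left.2 hDY
    rw [h0] at hlk
    have h1 : (upS R Q1 A ∪ lk Y e D).card ≤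
        (upS R Q1 A ∪ lk Y e D ∪ (if S = ∅ then ∅ else Q1 \ Y)).card :=
      card_le_card subset_union_left
    have h2 : (upS R Q1 A).card ≤ (upS R Q1 A ∪ lk Y e D).card := card_le_card subset_union_left
    have h3 : (lk Y e D).card ≤ (upS R Q1 A ∪ lk Y e D).card := card_le_card subset_union_right
    rcases hk with hk | hk <;> omega
  · rw [if_neg hDY, card_univ, Fintype.card_fin]
    have hne : Y ≠ Q1 := by
      rintro rfl
      apply hDY
      have h1 : Y' = Q2 := eq_of_subset_of_card_le hY' (by omega)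
      rw [h1]
      exact hD
    by_cases hSe : S = ∅
    · rw [if_pos hSe, union_empty, hSe, card_empty]
      set A' := P2 \ loS R P2 D with hA'
      have hlo : loS R P2 D ⊆ P2 := by
        intro x hx
        exact (mem_loS.1 hx).1
      have h1 : A'.card + (loS R P2 D).card = P2.card := card_sdiff_add_card_eq_card hlo
      have hdis : Disjoint D (upS R Q2 A') := by
        rw [disjoint_left]
        intro c hc hc'
        obtain ⟨_, x, hx, hxc⟩ := mem_upS.1 hc'
        rw [hA', mem_sdiff] at hx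
        exact hx.2 (mem_loS.2 ⟨hx.1, c, hc, hxc⟩)
      have h2 := hr hne A hA A' sdiff_subset
      have h3 : (upS R Q2 A').card = (upS R Q2 A' ∩ Y').card + (upS R Q2 A' \ Y').card :=
        (card_inter_add_card_sdiff _ _).symm
      have hup2 : upS R Q2 A' ⊆ Q2 := by
        intro x hx
        exact (mem_upS.1 hx).1
      have h4 : (D \ Y').card + (upS R Q2 A' \ Y').card ≤ (Q2 \ Y').card := by
        rw [← card_union_of_disjoint]
        · exact card_le_card (union_subset (sdiff_subset_sdiff hD subset_rfl)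
            (sdiff_subset_sdiff hup2 subset_rfl))
        · exact hdis.mono sdiff_subset sdiff_subset
      have h5 : (Q2 \ Y').card + Y'.card = Q2.card := card_sdiff_add_card_eq_card hY'
      have h6 : (lk Y e (upS R Q2 A')).card = (upS R Q2 A' ∩ Y').card := card_lk he
      have h7 : (upS R Q1 A ∩ lk Y e D).card + (lk Y e (upS R Q2 A')).card ≤ Y.card := by
        rw [← card_union_of_disjoint]
        · exact card_le_card (union_subset (inter_subset_right.trans hlkY) (filter_subset _ _))
        · rw [disjoint_left]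
          intro z hz hz'
          have h8 := (mem_filter.1 (mem_inter.1 hz).2).2
          have h9 := (mem_filter.1 hz').2
          exact disjoint_left.1 hdis h8 h9
      have h8 := card_union_add_card_inter (upS R Q1 A) (lk Y e D)
      have h9 : (lk Y e D).card ≤ (upS R Q1 A ∪ lk Y e D).card := card_le_card subset_union_right
      rcases le_max_iff.1 h2 with h2 | h2 <;> omega
    · rw [if_neg hSe]
      have h1 : (Q1 \ Y).card + Y.card = Q1.card := card_sdiff_add_card_eq_card hY
      have h2 : (lk Y e D ∪ (Q1 \ Y)).card = (lk Y e D).card + (Q1 \ Y).card := by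
        apply card_union_of_disjoint
        rw [disjoint_left]
        intro z hz hz'
        exact (mem_sdiff.1 hz').2 (hlkY hz)
      have h3 : (lk Y e D ∪ (Q1 \ Y)).card ≤ (upS R Q1 A ∪ lk Y e D ∪ (Q1 \ Y)).card := by
        apply card_le_card
        rw [union_assoc]
        exact subset_union_right
      have h4 : (upS R Q1 A).card ≤ (upS R Q1 A ∪ lk Y e D ∪ (Q1 \ Y)).card := by
        apply card_le_card
        rw [union_assoc]
        exact subset_union_left
      have h5 : (Q2 \ Y').card + Y'.card = Q2.card := card_sdiff_add_card_eq_card hY'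
      have h6 : (D \ Y').card ≤ (Q2 \ Y').card := card_le_card (sdiff_subset_sdiff hD subset_rfl)
      rcases hk with hk | hk <;> omega

/-- the neighbourhoods in the Hall graph -/
noncomputable def nb (R : α → β → Prop) (P1 P2 : Finset α) (Q1 Q2 Y Y' : Finset β) (e : β → β)
    (U : ℕ) : ({x // x ∈ P1} ⊕ ({c // c ∈ Q2} ⊕ Fin U)) → Finset (β ⊕ (α ⊕ Fin U)) :=
  fun i => match i with
  | Sum.inl x => (upS R Q1 {x.1}).disjSum ∅
  | Sum.inr (Sum.inl c) => (lk Y e {c.1}).disjSum
      ((loS R P2 {c.1}).disjSum (if c.1 ∈ Y' then ∅ else univ))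
  | Sum.inr (Sum.inr j) => (Q1 \ Y).disjSum ((∅ : Finset α).disjSum {j})

theorem hall (hP : P1.card = P2.card) (hQ : Q1.card = Q2.card)
    (hY : Y ⊆ Q1) (hY' : Y' ⊆ Q2) (he : Set.BijOn e (Y : Set β) (Y' : Set β))
    (hK : ∀ A ⊆ P1, ∀ D ⊆ Q2, A.card ≤ (loS R P2 D).card ∨
      A.card + D.card ≤ (upS R Q1 A).card + (loS R P2 D).card)
    (hr : Y ≠ Q1 → ∀ A ⊆ P1, ∀ A' ⊆ P2,
      r + A.card + A'.card ≤ max Y.card ((upS R Q1 A).card + (upS R Q2 A').card))
    (hU : P1.card + r + U = Q1.card)
    (s : Finset ({x // x ∈ P1} ⊕ ({c // c ∈ Q2} ⊕ Fin U))) :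
    s.card ≤ (s.biUnion (nb R P1 P2 Q1 Q2 Y Y' e U)).card := by
  classical
  set A : Finset α := s.toLeft.map (Function.Embedding.subtype _) with hAdef
  set D : Finset β := s.toRight.toLeft.map (Function.Embedding.subtype _) with hDdef
  set S : Finset (Fin U) := s.toRight.toRight with hSdef
  have hA : A ⊆ P1 := by
    intro x hx
    obtain ⟨z, _, rfl⟩ := mem_map.1 hx
    exact z.2
  have hD : D ⊆ Q2 := by
    intro x hx
    obtain ⟨z, _, rfl⟩ := mem_map.1 hx
    exact z.2
  have hcard : s.card = A.card + D.card + S.card := by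
    rw [hAdef, hDdef, hSdef, card_map, card_map, add_assoc, card_toLeft_add_card_toRight,
      card_toLeft_add_card_toRight]
  have hsub : (upS R Q1 A ∪ lk Y e D ∪ (if S = ∅ then ∅ else Q1 \ Y)).disjSum
      ((loS R P2 D).disjSum (if D ⊆ Y' then S else univ)) ⊆
      s.biUnion (nb R P1 P2 Q1 Q2 Y Y' e U) := by
    intro z hz
    rw [mem_biUnion]
    rcases z with z | z | z
    · rw [inl_mem_disjSum, mem_union, mem_union] at hz
      rcases hz with (hz | hz) | hz
      · obtain ⟨hzQ, x, hx, hxz⟩ := mem_upS.1 hz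
        obtain ⟨w, hw, rfl⟩ := mem_map.1 hx
        refine ⟨Sum.inl w, mem_toLeft.1 hw, ?_⟩
        simp only [nb]
        rw [inl_mem_disjSum]
        exact mem_upS.2 ⟨hzQ, _, mem_singleton_self _, hxz⟩
      · obtain ⟨hzY, hzD⟩ := mem_filter.1 hz
        obtain ⟨w, hw, hwz⟩ := mem_map.1 hzD
        refine ⟨Sum.inr (Sum.inl w), mem_toRight.1 (mem_toLeft.1 hw), ?_⟩
        simp only [nb]
        rw [inl_mem_disjSum]
        refine mem_filter.2 ⟨hzY, ?_⟩
        rw [mem_singleton, ← hwz]
        rfl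
      · by_cases hS : S = ∅
        · rw [if_pos hS] at hz
          exact absurd hz (notMem_empty _)
        · rw [if_neg hS] at hz
          obtain ⟨j, hj⟩ := nonempty_iff_ne_empty.2 hS
          refine ⟨Sum.inr (Sum.inr j), mem_toRight.1 (mem_toRight.1 hj), ?_⟩
          simp only [nb]
          rw [inl_mem_disjSum]
          exact hz
    · rw [inr_mem_disjSum, inl_mem_disjSum] at hz
      obtain ⟨hzP, c, hc, hzc⟩ := mem_loS.1 hz
      obtain ⟨w, hw, rfl⟩ := mem_map.1 hc
      refine ⟨Sum.inr (Sum.inl w), mem_toRight.1 (mem_toLeft.1 hw), ?_⟩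
      simp only [nb]
      rw [inr_mem_disjSum, inl_mem_disjSum]
      exact mem_loS.2 ⟨hzP, _, mem_singleton_self _, hzc⟩
    · rw [inr_mem_disjSum, inr_mem_disjSum] at hz
      by_cases hDY : D ⊆ Y'
      · rw [if_pos hDY] at hz
        refine ⟨Sum.inr (Sum.inr z), mem_toRight.1 (mem_toRight.1 hz), ?_⟩
        simp only [nb]
        rw [inr_mem_disjSum, inr_mem_disjSum, mem_singleton]
      · obtain ⟨c, hc, hcY⟩ := not_subset.1 hDY
        obtain ⟨w, hw, hwc⟩ := mem_map.1 hc
        refine ⟨Sum.inr (Sum.inl w), mem_toRight.1 (mem_toLeft.1 hw), ?_⟩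
        simp only [nb]
        have hwc' : w.1 = c := hwc
        rw [inr_mem_disjSum, inr_mem_disjSum, hwc', if_neg hcY]
        exact mem_univ _
  calc s.card = A.card + D.card + S.card := hcard
    _ ≤ _ := count hP hQ hY hY' he hK hr hU hA hD S
    _ = ((upS R Q1 A ∪ lk Y e D ∪ (if S = ∅ then ∅ else Q1 \ Y)).disjSum
      ((loS R P2 D).disjSum (if D ⊆ Y' then S else univ))).card := by
        rw [card_disjSum, card_disjSum, add_assoc]
    _ ≤ _ := card_le_card hsub

/-- The step: `R`-injections `F`, `G` which use the same prescribed links, at least `r` prescribed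
links are not used. -/
theorem hall_step [Nonempty β] (hP : P1.card = P2.card) (hQ : Q1.card = Q2.card)
    (hY : Y ⊆ Q1) (hY' : Y' ⊆ Q2) (he : Set.BijOn e (Y : Set β) (Y' : Set β))
    (hK : ∀ A ⊆ P1, ∀ D ⊆ Q2, A.card ≤ (loS R P2 D).card ∨
      A.card + D.card ≤ (upS R Q1 A).card + (loS R P2 D).card)
    (hr : Y ≠ Q1 → ∀ A ⊆ P1, ∀ A' ⊆ P2,
      r + A.card + A'.card ≤ max Y.card ((upS R Q1 A).card + (upS R Q2 A').card))
    (hU : P1.card + r ≤ Q1.card) :
    ∃ F G : α → β, (∀ x ∈ P1, F x ∈ Q1 ∧ R x (F x)) ∧ (∀ x ∈ P2, G x ∈ Q2 ∧ R x (G x)) ∧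
      Set.InjOn F (P1 : Set α) ∧ Set.InjOn G (P2 : Set α) ∧
      (∀ y ∈ Y, y ∈ P1.image F ↔ e y ∈ P2.image G) ∧
      (P1.image F ∩ Y).card + r ≤ Y.card := by
  classical
  obtain ⟨U, hU⟩ : ∃ U, P1.card + r + U = Q1.card := ⟨Q1.card - (P1.card + r), by omega⟩
  obtain ⟨Φ, hΦi, hΦ⟩ := (Finset.all_card_le_biUnion_card_iff_exists_injective
    (nb R P1 P2 Q1 Q2 Y Y' e U)).1 (hall hP hQ hY hY' he hK hr hU)
  -- the image is everything
  have himg : (univ : Finset ({x // x ∈ P1} ⊕ ({c // c ∈ Q2} ⊕ Fin U))).image Φ =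
      Q1.disjSum (P2.disjSum univ) := by
    apply eq_of_subset_of_card_le
    · intro z hz
      obtain ⟨i, _, rfl⟩ := mem_image.1 hz
      have h := hΦ i
      rcases i with x | c | j
      · simp only [nb] at h
        generalize Φ (Sum.inl x) = w at h ⊢
        rcases w with w | w
        · rw [inl_mem_disjSum] at h ⊢
          exact (mem_upS.1 h).1
        · rw [inr_mem_disjSum] at h
          exact absurd h (notMem_empty _)
      · simp only [nb] at h
        generalize Φ (Sum.inr (Sum.inl c)) = w at h ⊢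
        rcases w with w | w | w
        · rw [inl_mem_disjSum] at h ⊢
          exact hY (mem_filter.1 h).1
        · rw [inr_mem_disjSum, inl_mem_disjSum] at h ⊢
          exact (mem_loS.1 h).1
        · rw [inr_mem_disjSum, inr_mem_disjSum]
          exact mem_univ _
      · simp only [nb] at h
        generalize Φ (Sum.inr (Sum.inr j)) = w at h ⊢
        rcases w with w | w | w
        · rw [inl_mem_disjSum] at h ⊢
          exact (mem_sdiff.1 h).1
        · rw [inr_mem_disjSum, inl_mem_disjSum] at h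
          exact absurd h (notMem_empty _)
        · rw [inr_mem_disjSum, inr_mem_disjSum]
          exact mem_univ _
    · rw [card_image_of_injective _ hΦi, card_univ, Fintype.card_sum, Fintype.card_sum,
        Fintype.card_coe, Fintype.card_coe, card_disjSum, card_disjSum, card_univ]
      omega
  have hF : ∀ x : α, x ∈ P1 → ∃ y : β, y ∈ Q1 ∧ R x y ∧
      ∀ hx : x ∈ P1, Φ (Sum.inl ⟨x, hx⟩) = Sum.inl y := by
    intro x hx
    have h := hΦ (Sum.inl ⟨x, hx⟩)
    simp only [nb] at h
    have key : ∀ w, w ∈ (upS R Q1 {x}).disjSum (∅ : Finset (α ⊕ Fin U)) →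
        ∃ y : β, y ∈ Q1 ∧ R x y ∧ w = Sum.inl y := by
      intro w hw
      rcases w with w | w
      · rw [inl_mem_disjSum] at hw
        obtain ⟨h1, x', hx', h2⟩ := mem_upS.1 hw
        rw [mem_singleton] at hx'
        subst hx'
        exact ⟨w, h1, h2, rfl⟩
      · rw [inr_mem_disjSum] at hw
        exact absurd hw (notMem_empty _)
    obtain ⟨y, h1, h2, h3⟩ := key _ h
    exact ⟨y, h1, h2, fun _ => h3⟩
  choose! F hFQ hFR hFΦ using hF
  have hG : ∀ x : α, x ∈ P2 → ∃ c : β, R x c ∧ ∃ hc : c ∈ Q2,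
      Φ (Sum.inr (Sum.inl ⟨c, hc⟩)) = Sum.inr (Sum.inl x) := by
    intro x hx
    have h : (Sum.inr (Sum.inl x) : β ⊕ (α ⊕ Fin U)) ∈ Q1.disjSum (P2.disjSum univ) := by
      rw [inr_mem_disjSum, inl_mem_disjSum]
      exact hx
    rw [← himg] at h
    obtain ⟨i, _, hi⟩ := mem_image.1 h
    have h' := hΦ i
    rcases i with x' | c | j
    · simp only [nb] at h'
      rw [hi, inr_mem_disjSum] at h'
      exact absurd h' (notMem_empty _)
    · simp only [nb] at h'
      rw [hi, inr_mem_disjSum, inl_mem_disjSum] at h'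
      obtain ⟨_, z, hz, hxz⟩ := mem_loS.1 h'
      rw [mem_singleton] at hz
      subst hz
      exact ⟨c.1, hxz, c.2, hi⟩
    · simp only [nb] at h'
      rw [hi, inr_mem_disjSum, inl_mem_disjSum] at h'
      exact absurd h' (notMem_empty _)
  choose! G hGR hGQ hGΦ using hG
  have hFi : Set.InjOn F (P1 : Set α) := by
    intro x hx x' hx' h
    have h1 := hFΦ x hx hx
    have h2 := hFΦ x' hx' hx'
    rw [h, ← h2] at h1
    have h3 := Sum.inl_injective (hΦi h1)
    exact congrArg Subtype.val h3
  have hGi : Set.InjOn G (P2 : Set α) := by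
    intro x hx x' hx' h
    have h1 := hGΦ x hx
    have h2 := hGΦ x' hx'
    have h3 : (⟨G x, hGQ x hx⟩ : {c // c ∈ Q2}) = ⟨G x', hGQ x' hx'⟩ := Subtype.ext h
    rw [h3, h2] at h1
    exact (Sum.inl_injective (Sum.inr_injective h1)).symm
  -- which left vertex is matched with a bottom
  have hbot : ∀ z ∈ Q1, (∃ x ∈ P1, F x = z) ∨
      (z ∈ Y ∧ ∃ hc : e z ∈ Q2, Φ (Sum.inr (Sum.inl ⟨e z, hc⟩)) = Sum.inl z) ∨
      (z ∉ Y ∧ ∃ j : Fin U, Φ (Sum.inr (Sum.inr j)) = Sum.inl z) := by
    intro z hz
    have h : (Sum.inl z : β ⊕ (α ⊕ Fin U)) ∈ Q1.disjSum (P2.disjSum univ) := by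
      rw [inl_mem_disjSum]
      exact hz
    rw [← himg] at h
    obtain ⟨i, _, hi⟩ := mem_image.1 h
    have h' := hΦ i
    rcases i with x | c | j
    · left
      have h1 := hFΦ x.1 x.2 x.2
      rw [hi] at h1
      exact ⟨x.1, x.2, (Sum.inl_injective h1).symm⟩
    · right
      left
      simp only [nb] at h'
      rw [hi, inl_mem_disjSum] at h'
      obtain ⟨h1, h2⟩ := mem_filter.1 h'
      rw [mem_singleton] at h2
      refine ⟨h1, h2 ▸ c.2, ?_⟩
      rw [← hi]
      congr 2
      exact congrArg Sum.inl (Subtype.ext h2)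
    · right
      right
      simp only [nb] at h'
      rw [hi, inl_mem_disjSum] at h'
      exact ⟨(mem_sdiff.1 h').2, j, hi⟩
  refine ⟨F, G, fun x hx => ⟨hFQ x hx, hFR x hx⟩, fun x hx => ⟨hGQ x hx, hGR x hx⟩, hFi, hGi,
    ?_, ?_⟩
  · intro y hy
    have hey : e y ∈ Y' := he.mapsTo hy
    constructor
    · intro h
      obtain ⟨x, hx, rfl⟩ := mem_image.1 h
      have h1 := hΦ (Sum.inr (Sum.inl ⟨e (F x), hY' hey⟩))
      have h2 : ∀ w, w ∈ (lk Y e {e (F x)}).disjSum
          ((loS R P2 {e (F x)}).disjSum (∅ : Finset (Fin U))) →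
          w = Sum.inl (F x) ∨ ∃ v ∈ P2, w = Sum.inr (Sum.inl v) := by
        intro w hw
        rcases w with w | w | w
        · left
          rw [inl_mem_disjSum] at hw
          obtain ⟨h3, h4⟩ := mem_filter.1 hw
          rw [mem_singleton] at h4
          exact congrArg Sum.inl (he.injOn h3 hy h4)
        · right
          rw [inr_mem_disjSum, inl_mem_disjSum] at hw
          exact ⟨w, (mem_loS.1 hw).1, rfl⟩
        · rw [inr_mem_disjSum, inr_mem_disjSum] at hw
          exact absurd hw (notMem_empty _)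
      simp only [nb] at h1
      rw [if_pos hey] at h1
      rcases h2 _ h1 with h3 | ⟨v, hv, h3⟩
      · rw [← hFΦ x hx hx] at h3
        have h4 := hΦi h3
        exact absurd h4 (by simp)
      · have h4 := hGΦ v hv
        rw [← h3] at h4
        have h5 := Sum.inl_injective (Sum.inr_injective (hΦi h4))
        exact mem_image.2 ⟨v, hv, congrArg Subtype.val h5⟩
    · intro h
      obtain ⟨v, hv, hvy⟩ := mem_image.1 h
      rcases hbot y (hY hy) with ⟨x, hx, h1⟩ | ⟨_, hc, h1⟩ | ⟨h1, _⟩
      · exact mem_image.2 ⟨x, hx, h1⟩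
      · have h4 := hGΦ v hv
        have h5 : (⟨G v, hGQ v hv⟩ : {c // c ∈ Q2}) = ⟨e y, hc⟩ := Subtype.ext hvy
        rw [h5, h1] at h4
        exact absurd h4 (by simp)
      · exact absurd hy h1
  · -- counting: at most `U` bottoms outside `Y` are not in the image of `F`
    have h1 : ((Q1 \ Y) \ P1.image F).card ≤ U := by
      have h2 : ∀ z ∈ (Q1 \ Y) \ P1.image F, ∃ j : Fin U, Φ (Sum.inr (Sum.inr j)) = Sum.inl z := by
        intro z hz
        rw [mem_sdiff, mem_sdiff] at hz
        rcases hbot z hz.1.1 with ⟨x, hx, h1⟩ | ⟨h1, _⟩ | ⟨_, h1⟩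
        · exact absurd (mem_image.2 ⟨x, hx, h1⟩) hz.2
        · exact absurd h1 hz.1.2
        · exact h1
      have h3 : ((Q1 \ Y) \ P1.image F).map (Function.Embedding.inl (β := α ⊕ Fin U)) ⊆
          (univ : Finset (Fin U)).image fun j => Φ (Sum.inr (Sum.inr j)) := by
        intro w hw
        obtain ⟨z, hz, rfl⟩ := mem_map.1 hw
        obtain ⟨j, hj⟩ := h2 z hz
        exact mem_image.2 ⟨j, mem_univ _, hj⟩
      have h4 := card_le_card h3
      rw [card_map] at h4
      refine h4.trans (card_image_le.trans ?_)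
      simp
    have h2 : (P1.image F).card = P1.card := card_image_of_injOn hFi
    have h3 : P1.image F ⊆ Q1 := by
      intro z hz
      obtain ⟨x, hx, rfl⟩ := mem_image.1 hz
      exact hFQ x hx
    have h4 : (Q1 \ Y).card + Y.card = Q1.card := card_sdiff_add_card_eq_card hY
    have h5 := card_inter_add_card_sdiff (P1.image F) Y
    have h6 : (P1.image F \ Y).card + ((Q1 \ Y) \ P1.image F).card ≥ (Q1 \ Y).card := by
      rw [ge_iff_le, ← card_union_of_disjoint]
      · apply card_le_card
        intro z hz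
        rw [mem_union, mem_sdiff, mem_sdiff]
        by_cases h : z ∈ P1.image F
        · left
          exact ⟨h, (mem_sdiff.1 hz).2⟩
        · right
          exact ⟨hz, h⟩
      · rw [disjoint_left]
        intro z hz hz'
        exact (mem_sdiff.1 hz').2 (mem_sdiff.1 hz).1
    omega

end

end Pool.Agent.Helper84.SN
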