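import Pool.Agent.Helper84.SN.CovStep

set_option autoImplicit false

/-!
# Project SN: from the alternating group to the identity by optional 3-cycles (note 2271, (5b))

`T k B` : some configuration of the special chains at level `k` has `Cov` with the set `B`. An
optional 3-cycle `c` replaces `B` by any `B'` which contains `b` or `b * c⁻¹` for all `b ∈ B`.
-/

namespace Pool.Agent.Helper84.SN

open Finset

section

variable {ι : Type*} [DecidableEq ι] [Fintype ι]

omit [DecidableEq ι] [Fintype ι] in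
theorem reduce_list (T : ℕ → Set (Equiv.Perm ι) → Prop) (K : ℕ) (C : Set (Equiv.Perm ι))
    (hT : ∀ k ≥ K, ∀ c ∈ C, ∀ B B' : Set (Equiv.Perm ι),
      (∀ b ∈ B, b ∈ B' ∨ b * c⁻¹ ∈ B') → T k B → ∃ k' ≥ k, T k' B')
    (l : List (Equiv.Perm ι)) :
    (∀ c ∈ l, c ∈ C) → ∀ k ≥ K, ∀ (B : Set (Equiv.Perm ι)) (b : Equiv.Perm ι),
      b = (l.reverse).prod → T k (insert b B) → ∃ k' ≥ k, T k' (insert 1 B) := by
  induction l with
  | nil =>
    intro _ k _ B b hb h
    refine ⟨k, le_rfl, ?_⟩
    rw [hb] at h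
    simpa using h
  | cons c l ih =>
    intro hl k hk B b hb h
    have h1 : b * c⁻¹ = (l.reverse).prod := by
      rw [hb]
      simp
    obtain ⟨k', hk', h2⟩ := hT k hk c (hl c (by simp)) (insert b B) (insert (b * c⁻¹) B) (by
      intro a ha
      rcases Set.mem_insert_iff.1 ha with rfl | ha
      · right
        exact Set.mem_insert _ _
      · left
        exact Set.mem_insert_of_mem _ ha) h
    obtain ⟨k'', hk'', h3⟩ := ih (fun c hc => hl c (by simp [hc])) k' (by omega) B _ h1 h2
    exact ⟨k'', by omega, h3⟩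

omit [DecidableEq ι] [Fintype ι] in
theorem exists_list {C : Set (Equiv.Perm ι)} (hC : ∀ c ∈ C, c⁻¹ ∈ C) {b : Equiv.Perm ι}
    (hb : b ∈ Subgroup.closure C) : ∃ l : List (Equiv.Perm ι), (∀ c ∈ l, c ∈ C) ∧ b = l.prod := by
  induction hb using Subgroup.closure_induction with
  | mem x hx => exact ⟨[x], by simpa using hx, by simp⟩
  | one => exact ⟨[], by simp, by simp⟩
  | mul x y _ _ hx hy =>
    obtain ⟨l, hl, rfl⟩ := hx
    obtain ⟨l', hl', rfl⟩ := hy
    refine ⟨l ++ l', ?_, by simp⟩
    intro c hc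
    rcases List.mem_append.1 hc with h | h
    · exact hl c h
    · exact hl' c h
  | inv x _ hx =>
    obtain ⟨l, hl, rfl⟩ := hx
    refine ⟨(l.map fun g => g⁻¹).reverse, ?_, ?_⟩
    · intro c hc
      rw [List.mem_reverse, List.mem_map] at hc
      obtain ⟨d, hd, rfl⟩ := hc
      exact hC d (hl d hd)
    · rw [List.prod_inv_reverse]

theorem reduce_alt (T : ℕ → Set (Equiv.Perm ι) → Prop) (K : ℕ)
    (hT : ∀ k ≥ K, ∀ c : Equiv.Perm ι, c.IsThreeCycle → ∀ B B' : Set (Equiv.Perm ι),
      (∀ b ∈ B, b ∈ B' ∨ b * c⁻¹ ∈ B') → T k B → ∃ k' ≥ k, T k' B')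
    (k : ℕ) (hk : K ≤ k) (h : T k {b | Equiv.Perm.sign b = 1}) : ∃ k' ≥ k, T k' {1} := by
  -- the statement for all finite sets of even permutations
  have key : ∀ S : Finset (Equiv.Perm ι), (∀ b ∈ S, Equiv.Perm.sign b = 1) →
      ∀ k ≥ K, T k (insert 1 (S : Set (Equiv.Perm ι))) → ∃ k' ≥ k, T k' {1} := by
    intro S
    induction S using Finset.induction_on with
    | empty =>
      intro _ k _ h
      exact ⟨k, le_rfl, by simpa using h⟩
    | insert b S _ ih =>
      intro hS k hk h
      have hb : b ∈ alternatingGroup ι := by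
        rw [Equiv.Perm.mem_alternatingGroup]
        exact hS b (mem_insert_self _ _)
      rw [← Equiv.Perm.closure_three_cycles_eq_alternating] at hb
      obtain ⟨l, hl, hbl⟩ := exists_list (C := {c : Equiv.Perm ι | c.IsThreeCycle})
        (fun c hc => Equiv.Perm.IsThreeCycle.inv hc) hb
      have h' : T k (insert b (insert 1 (S : Set (Equiv.Perm ι)))) := by
        rw [coe_insert, Set.insert_comm] at h
        exact h
      have hl' : ∀ c ∈ l.reverse, c ∈ {c : Equiv.Perm ι | c.IsThreeCycle} := by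
        intro c hc
        rw [List.mem_reverse] at hc
        exact hl c hc
      have hbl' : b = (l.reverse.reverse).prod := by
        rw [List.reverse_reverse]
        exact hbl
      obtain ⟨k', hk', h1⟩ := reduce_list T K {c : Equiv.Perm ι | c.IsThreeCycle} hT
        l.reverse hl' k hk (insert 1 (S : Set (Equiv.Perm ι))) b hbl' h'
      rw [Set.insert_idem] at h1
      obtain ⟨k'', hk'', h2⟩ := ih (fun a ha => hS a (mem_insert_of_mem ha)) k' (by omega) h1
      exact ⟨k'', by omega, h2⟩
  refine key (univ.filter fun b => Equiv.Perm.sign b = 1) (fun b hb => (mem_filter.1 hb).2) k hk ?_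
  have h1 : (insert 1 ((univ.filter fun b : Equiv.Perm ι => Equiv.Perm.sign b = 1 :
      Finset (Equiv.Perm ι)) : Set (Equiv.Perm ι))) = {b | Equiv.Perm.sign b = 1} := by
    ext b
    simp only [coe_filter, mem_univ, true_and, Set.mem_insert_iff, Set.mem_setOf_eq]
    constructor
    · rintro (rfl | h)
      · exact Equiv.Perm.sign_one
      · exact h
    · intro h
      exact Or.inr h
  rw [h1]
  exact h

/-- `Cov` with the set `{1}` is the unrestricted statement. -/
theorem Cov.all {α : Type*} [DecidableEq α] {P : Finset α}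
    {E : Equiv.Perm {x // x ∈ P} → Prop} {x x' : ι → {x // x ∈ P}} (h : Cov P E x x' {1})
    (π : Equiv.Perm {x // x ∈ P}) (hπ : ∀ i, π (x i) = x' i) : E π := by
  obtain ⟨b, hb, π', h1, h2, h3⟩ := h π hπ
  rw [Set.mem_singleton_iff] at hb
  subst hb
  have h4 : π' = π := by
    ext1 z
    by_cases hz : ∃ i, x i = z
    · obtain ⟨i, rfl⟩ := hz
      rw [h2, hπ]
      rfl
    · push Not at hz
      exact h1 z hz
  rw [← h4]
  exact h3

end

end Pool.Agent.Helper84.SN
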