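import Pool.Agent.Helper84.SN.HallStep

set_option autoImplicit false

/-!
# Project SN: the killing step with signs (team note 2271, (2)) and the punctured step

A linking of a level `Q` is a permutation of (the subtype of) `Q`. `LStep R P Q π π'`: the chains
with linking `π` at the upper level `Q` can be prolonged to the lower level `P` such that the linking
at `P` is `π'`.
-/

namespace Pool.Agent.Helper84.SN

open Finset

section

variable {α β : Type*} [DecidableEq α] [DecidableEq β]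

/-- one prolongation step of linkings -/
def LStep (R : α → β → Prop) (P : Finset α) (Q : Finset β)
    (π : Equiv.Perm {z // z ∈ Q}) (π' : Equiv.Perm {x // x ∈ P}) : Prop :=
  ∃ F G : {x // x ∈ P} → {z // z ∈ Q}, Function.Injective F ∧ Function.Injective G ∧
    (∀ x, R x.1 (F x).1) ∧ (∀ x, R x.1 (G x).1) ∧ ∀ x, π (F x) = G (π' x)

/-- Every linking with at most `y` prescribed links can be completed to a linking in `E` of any
sign. -/
def Kill (P : Finset α) (E : Equiv.Perm {x // x ∈ P} → Prop) (y : ℕ) : Prop :=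
  ∀ Z : Finset {x // x ∈ P}, Z.card ≤ y → ∀ π : Equiv.Perm {x // x ∈ P}, ∀ s : ℤˣ,
    ∃ π' : Equiv.Perm {x // x ∈ P}, (∀ x ∈ Z, π' x = π x) ∧ Equiv.Perm.sign π' = s ∧ E π'

/-- the extension of a partial injection of a finite type to a permutation -/
theorem exists_perm {γ : Type*} [Fintype γ] [DecidableEq γ] (f : γ → γ) (s : Finset γ)
    (hf : Set.InjOn f (s : Set γ)) : ∃ π : Equiv.Perm γ, ∀ x ∈ s, π x = f x := by
  classical
  obtain ⟨g, hg⟩ := Finset.exists_equiv_extend_of_card_eq (α := γ) (β := γ) (t := univ)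
    (by simp) (s := s) (f := f) (subset_univ _) hf
  refine ⟨g.trans (Equiv.subtypeUnivEquiv fun x => mem_univ x), fun x hx => ?_⟩
  exact hg x hx

variable {R : α → β → Prop} {P : Finset α} {Q : Finset β}

/-- The killing step: `K(P, y - r)` gives `K(Q, y)`. -/
theorem kill_step (r y : ℕ) (hy : y ≤ Q.card)
    (hK : ∀ A ⊆ P, ∀ D ⊆ Q, A.card ≤ (loS R P D).card ∨
      A.card + D.card ≤ (upS R Q A).card + (loS R P D).card)
    (hr : ∀ A ⊆ P, ∀ A' ⊆ P,
      r + A.card + A'.card ≤ max y ((upS R Q A).card + (upS R Q A').card))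
    (hU : P.card + r ≤ Q.card)
    {E : Equiv.Perm {x // x ∈ P} → Prop} (hE : ∀ y', y' + r ≤ y → Kill P E y') :
    Kill Q (fun π => ∃ π', LStep R P Q π π' ∧ E π') y := by
  classical
  intro Z₀ hZ₀ π s
  -- enlarge the prescribed set to exactly `y` elements
  obtain ⟨Y₀, hZY, -, hY₀⟩ := exists_subsuperset_card_eq (subset_univ Z₀) hZ₀
    (by rw [card_univ, Fintype.card_coe]; exact hy)
  suffices h : ∃ π' : Equiv.Perm {x // x ∈ Q}, (∀ x ∈ Y₀, π' x = π x) ∧
      Equiv.Perm.sign π' = s ∧ ∃ π'', LStep R P Q π' π'' ∧ E π'' by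
    obtain ⟨π', h1, h2, h3⟩ := h
    exact ⟨π', fun x hx => h1 x (hZY hx), h2, h3⟩
  by_cases hQ0 : Q.card = 0
  · -- trivial: everything is empty
    have hP0 : P.card = 0 := by omega
    have hr0 : r = 0 := by omega
    have hempty : IsEmpty {z // z ∈ Q} := by
      rw [card_eq_zero] at hQ0
      subst hQ0
      exact ⟨fun z => absurd z.2 (notMem_empty _)⟩
    have hemptyP : IsEmpty {z // z ∈ P} := by
      rw [card_eq_zero] at hP0
      subst hP0
      exact ⟨fun z => absurd z.2 (notMem_empty _)⟩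
    obtain ⟨π₁, -, hs₁, hE₁⟩ := hE 0 (by omega) ∅ (by simp) 1 s
    have h1 : π₁ = 1 := Subsingleton.elim _ _
    rw [h1, Equiv.Perm.sign_one] at hs₁
    refine ⟨1, fun x => (hempty.false x).elim, ?_, π₁, ?_, hE₁⟩
    · rw [Equiv.Perm.sign_one]
      exact hs₁
    · exact ⟨fun x => (hemptyP.false x).elim, fun x => (hemptyP.false x).elim,
        fun x => (hemptyP.false x).elim, fun x => (hemptyP.false x).elim,
        fun x => (hemptyP.false x).elim, fun x => (hemptyP.false x).elim,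
        fun x => (hemptyP.false x).elim⟩
  have hne : Nonempty β := by
    obtain ⟨z, _⟩ := card_pos.1 (Nat.pos_of_ne_zero hQ0)
    exact ⟨z⟩
  -- the data for the abstract Hall step
  set e : β → β := fun z => if h : z ∈ Q then (π ⟨z, h⟩).1 else z with he
  have heQ : ∀ z : {z // z ∈ Q}, e z.1 = (π z).1 := by
    intro z
    rw [he]
    simp only [z.2, dif_pos]
  set Y : Finset β := Y₀.map (Function.Embedding.subtype _) with hY
  have hYQ : Y ⊆ Q := by
    intro z hz
    obtain ⟨w, _, rfl⟩ := mem_map.1 hz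
    exact w.2
  have hYc : Y.card = y := by rw [hY, card_map, hY₀]
  have heI : Set.InjOn e (Q : Set β) := by
    intro z hz z' hz' h
    have h1 := heQ ⟨z, hz⟩
    have h2 := heQ ⟨z', hz'⟩
    rw [h, h2] at h1
    have h3 := π.injective (Subtype.ext h1)
    exact (congrArg Subtype.val h3).symm
  have hY'Q : Y.image e ⊆ Q := by
    intro z hz
    obtain ⟨w, hw, rfl⟩ := mem_image.1 hz
    rw [heQ ⟨w, hYQ hw⟩]
    exact (π ⟨w, hYQ hw⟩).2
  have heB : Set.BijOn e (Y : Set β) ((Y.image e : Finset β) : Set β) := by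
    rw [coe_image]
    exact (heI.mono (by exact_mod_cast hYQ)).bijOn_image
  obtain ⟨F, G, hF, hG, hFi, hGi, hFG, hcard⟩ := hall_step (R := R) (P1 := P) (P2 := P) (Q1 := Q)
    (Q2 := Q) (Y := Y) (Y' := Y.image e) (e := e) (r := r) rfl rfl hYQ hY'Q heB hK
    (fun _ A hA A' hA' => by rw [hYc]; exact hr A hA A' hA') hU
  -- subtype versions
  set F' : {x // x ∈ P} → {z // z ∈ Q} := fun x => ⟨F x.1, (hF x.1 x.2).1⟩ with hF'
  set G' : {x // x ∈ P} → {z // z ∈ Q} := fun x => ⟨G x.1, (hG x.1 x.2).1⟩ with hG'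
  have hF'i : Function.Injective F' := by
    intro x x' h
    exact Subtype.ext (hFi x.2 x'.2 (congrArg Subtype.val h))
  have hG'i : Function.Injective G' := by
    intro x x' h
    exact Subtype.ext (hGi x.2 x'.2 (congrArg Subtype.val h))
  have hmemF : ∀ z : {z // z ∈ Q}, z.1 ∈ P.image F ↔ ∃ x, F' x = z := by
    intro z
    rw [mem_image]
    constructor
    · rintro ⟨x, hx, h⟩
      exact ⟨⟨x, hx⟩, Subtype.ext h⟩
    · rintro ⟨x, h⟩
      exact ⟨x.1, x.2, congrArg Subtype.val h⟩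
  have hmemG : ∀ z : {z // z ∈ Q}, z.1 ∈ P.image G ↔ ∃ x, G' x = z := by
    intro z
    rw [mem_image]
    constructor
    · rintro ⟨x, hx, h⟩
      exact ⟨⟨x, hx⟩, Subtype.ext h⟩
    · rintro ⟨x, h⟩
      exact ⟨x.1, x.2, congrArg Subtype.val h⟩
  have hFG' : ∀ z ∈ Y₀, (∃ x, F' x = z) ↔ ∃ x, G' x = π z := by
    intro z hz
    have h1 : z.1 ∈ Y := mem_map.2 ⟨z, hz, rfl⟩
    have h2 := hFG z.1 h1
    rw [heQ z] at h2
    rw [← hmemF, h2, hmemG]
  set Z : Finset {x // x ∈ P} := univ.filter fun x => F' x ∈ Y₀ with hZ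
  have hZc : Z.card + r ≤ y := by
    rw [← hYc]
    refine le_trans (Nat.add_le_add_right ?_ _) hcard
    rw [← card_image_of_injective Z (f := fun x => (F' x).1) (by
      intro x x' h
      exact hF'i (Subtype.ext h))]
    apply card_le_card
    intro z hz
    obtain ⟨x, hx, rfl⟩ := mem_image.1 hz
    rw [mem_inter]
    exact ⟨mem_image.2 ⟨x.1, x.2, rfl⟩, mem_map.2 ⟨F' x, (mem_filter.1 hx).2, rfl⟩⟩
  -- the prescribed part of the lower linking
  have hex : ∀ x : {x // x ∈ P}, ∃ w : {x // x ∈ P}, x ∈ Z → G' w = π (F' x) := by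
    intro x
    by_cases hx : x ∈ Z
    · obtain ⟨w, hw⟩ := (hFG' (F' x) (mem_filter.1 hx).2).1 ⟨x, rfl⟩
      exact ⟨w, fun _ => hw⟩
    · exact ⟨x, fun h => absurd h hx⟩
  choose f hf using hex
  obtain ⟨π₀, hπ₀⟩ := exists_perm f Z (by
    intro x hx x' hx' h
    have h1 := hf x hx
    have h2 := hf x' hx'
    rw [h, h2] at h1
    exact hF'i (π.injective h1.symm))
  obtain ⟨π₁, hπ₁, -, -⟩ := hE Z.card hZc Z le_rfl π₀ 1
  -- the upper linking belonging to `π₁`
  have hex2 : ∀ z : {z // z ∈ Q}, ∃ w : {z // z ∈ Q},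
      (∀ x, F' x = z → w = G' (π₁ x)) ∧ ((¬ ∃ x, F' x = z) → w = π z) := by
    intro z
    by_cases hz : ∃ x, F' x = z
    · obtain ⟨x, rfl⟩ := hz
      refine ⟨G' (π₁ x), fun x' hx' => by rw [hF'i hx'], fun h => absurd ⟨x, rfl⟩ h⟩
    · exact ⟨π z, fun x hx => absurd ⟨x, hx⟩ hz, fun _ => rfl⟩
  choose g hg1 hg2 using hex2
  obtain ⟨ρ, hρ⟩ := exists_perm g (univ.image F' ∪ Y₀) (by
    intro z hz z' hz' h
    rw [mem_coe, mem_union] at hz hz'
    have hz2 : (∃ x, F' x = z) ∨ z ∈ Y₀ := by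
      rcases hz with hz | hz
      · obtain ⟨x, _, hx⟩ := mem_image.1 hz
        exact Or.inl ⟨x, hx⟩
      · exact Or.inr hz
    have hz2' : (∃ x, F' x = z') ∨ z' ∈ Y₀ := by
      rcases hz' with hz | hz
      · obtain ⟨x, _, hx⟩ := mem_image.1 hz
        exact Or.inl ⟨x, hx⟩
      · exact Or.inr hz
    by_cases hc : ∃ x, F' x = z
    · obtain ⟨x, hx⟩ := hc
      by_cases hc' : ∃ x, F' x = z'
      · obtain ⟨x', hx'⟩ := hc'
        rw [hg1 z x hx, hg1 z' x' hx'] at h
        rw [← hx, ← hx', π₁.injective (hG'i h)]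
      · have h1 : z' ∈ Y₀ := hz2'.resolve_left hc'
        rw [hg1 z x hx, hg2 z' hc'] at h
        exact absurd ((hFG' z' h1).2 ⟨_, h⟩) hc'
    · have h1 : z ∈ Y₀ := hz2.resolve_left hc
      by_cases hc' : ∃ x, F' x = z'
      · obtain ⟨x', hx'⟩ := hc'
        rw [hg2 z hc, hg1 z' x' hx'] at h
        exact absurd ((hFG' z h1).2 ⟨_, h.symm⟩) hc
      · rw [hg2 z hc, hg2 z' hc'] at h
        exact π.injective h)
  have hρF : ∀ x, ρ (F' x) = G' (π₁ x) := by
    intro x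
    rw [hρ _ (mem_union_left _ (mem_image_of_mem _ (mem_univ _))), hg1 _ x rfl]
  -- correct the sign
  obtain ⟨π₂, hπ₂, hs₂, hE₂⟩ := hE Z.card hZc Z le_rfl π₀
    (Equiv.Perm.sign ρ * Equiv.Perm.sign π₁ * s)
  set τ : Equiv.Perm {x // x ∈ P} := π₁⁻¹ * π₂ with hτ
  set T : Equiv.Perm {z // z ∈ Q} := Equiv.Perm.viaFintypeEmbedding τ ⟨F', hF'i⟩ with hT
  have hTF : ∀ x, T (F' x) = F' (τ x) := fun x =>
    Equiv.Perm.viaFintypeEmbedding_apply_image τ ⟨F', hF'i⟩ x
  have hTn : ∀ z, (¬ ∃ x, F' x = z) → T z = z := fun z hz =>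
    Equiv.Perm.viaFintypeEmbedding_apply_notMem_range τ ⟨F', hF'i⟩ (by
      rintro ⟨x, hx⟩
      exact hz ⟨x, hx⟩)
  have hkey : ∀ x, (ρ * T) (F' x) = G' (π₂ x) := by
    intro x
    rw [Equiv.Perm.mul_apply, hTF, hρF, hτ]
    simp
  refine ⟨ρ * T, ?_, ?_, π₂, ⟨F', G', hF'i, hG'i, fun x => (hF x.1 x.2).2,
    fun x => (hG x.1 x.2).2, hkey⟩, hE₂⟩
  · intro z hz
    by_cases hc : ∃ x, F' x = z
    · obtain ⟨x, rfl⟩ := hc
      have hxZ : x ∈ Z := mem_filter.2 ⟨mem_univ _, hz⟩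
      rw [hkey, hπ₂ x hxZ, hπ₀ x hxZ, hf x hxZ]
    · rw [Equiv.Perm.mul_apply, hTn z hc, hρ z (mem_union_right _ hz), hg2 z hc]
  · rw [Equiv.Perm.sign_mul, hT, Equiv.Perm.viaFintypeEmbedding_sign, hτ, Equiv.Perm.sign_mul,
      Equiv.Perm.sign_inv, hs₂]
    generalize Equiv.Perm.sign ρ = a
    generalize Equiv.Perm.sign π₁ = b
    rcases Int.units_eq_one_or a with rfl | rfl <;> rcases Int.units_eq_one_or b with rfl | rfl <;>
      simp

end

end Pool.Agent.Helper84.SN
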